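import Pool.Agent.Helper20.QP.St2

set_option autoImplicit false

open Filter Topology Matrix Set Metric MeasureTheory
open scoped ComplexConjugate ENNReal

namespace Pool.Agent.Helper5.QP

open Pool.Agent.Helper35.PM Pool.Agent.Helper20.QD Pool.Agent.Helper20.QP

private theorem nsq_LSA (w : ℂ) : ‖w‖ ^ 2 = w.re ^ 2 + w.im ^ 2 := by
  rw [← Complex.normSq_eq_norm_sq, Complex.normSq_apply]
  ring

private theorem one_LSA : ∀ z ∈ D, ∀ t : ℝ, 0 < t →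
    ‖(t • Pz z).2‖ < (t • Pz z).1 ∧ cm (t • Pz z) = z := by
  intro z hz t ht
  have h1 : ‖z‖ < 1 := mem_ball_zero_iff.1 hz
  have h0 : 0 ≤ ‖z‖ := norm_nonneg z
  have hp : 0 < 1 - ‖z‖ ^ 2 := by nlinarith
  have e1 : (t • Pz z).1 = t * ((1 + ‖z‖ ^ 2) / (1 - ‖z‖ ^ 2)) := rfl
  have e2 : (t • Pz z).2 = (t : ℂ) * (2 * z / ((1 - ‖z‖ ^ 2 : ℝ) : ℂ)) := rfl
  have e3 : ‖(t • Pz z).2‖ = t * (2 * ‖z‖ / (1 - ‖z‖ ^ 2)) := by
    rw [e2, norm_mul, norm_div, norm_mul, Complex.norm_real, Complex.norm_real, Real.norm_eq_abs,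
      Real.norm_eq_abs, abs_of_pos ht, abs_of_pos hp]
    norm_num
  refine ⟨?_, ?_⟩
  · rw [e3, e1]
    apply mul_lt_mul_of_pos_left _ ht
    apply div_lt_div_of_pos_right _ hp
    nlinarith
  · have e4 : (t • Pz z).1 ^ 2 - ‖(t • Pz z).2‖ ^ 2 = t ^ 2 := by
      rw [e3, e1]
      field_simp
      ring
    unfold cm
    rw [e4, Real.sqrt_sq ht.le, e1, e2]
    have e5 : t * ((1 + ‖z‖ ^ 2) / (1 - ‖z‖ ^ 2)) + t = 2 * t / (1 - ‖z‖ ^ 2) := by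
      field_simp
      ring
    rw [e5]
    have hp' : ((1 - ‖z‖ ^ 2 : ℝ) : ℂ) ≠ 0 := by exact_mod_cast hp.ne'
    have ht' : (t : ℂ) ≠ 0 := by exact_mod_cast ht.ne'
    rw [Complex.ofReal_div, Complex.ofReal_mul]
    field_simp
    push_cast
    ring

private theorem three_LSA : ∀ v : ℝ × ℂ, ‖v.2‖ < v.1 → cm v ∈ D ∧ ∃ t : ℝ, 0 < t ∧ v = t • Pz (cm v) := by
  rintro ⟨a, b⟩ hv
  simp only at hv
  have hb : 0 ≤ ‖b‖ := norm_nonneg b
  have ha : 0 < a := hb.trans_lt hv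
  have hpos : 0 < a ^ 2 - ‖b‖ ^ 2 := by nlinarith
  set t : ℝ := Real.sqrt (a ^ 2 - ‖b‖ ^ 2) with ht
  have ht0 : 0 < t := Real.sqrt_pos.2 hpos
  have ht2 : t ^ 2 = a ^ 2 - ‖b‖ ^ 2 := Real.sq_sqrt hpos.le
  have hat : 0 < a + t := by linarith
  have ec : cm (a, b) = b / ((a + t : ℝ) : ℂ) := rfl
  have en : ‖cm (a, b)‖ = ‖b‖ / (a + t) := by
    rw [ec, norm_div, Complex.norm_real, Real.norm_eq_abs, abs_of_pos hat]
  have hD : cm (a, b) ∈ D := by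
    rw [mem_ball_zero_iff, en, div_lt_one hat]
    linarith
  refine ⟨hD, t, ht0, ?_⟩
  have e1 : 1 - ‖cm (a, b)‖ ^ 2 = 2 * t / (a + t) := by
    rw [en]
    field_simp
    nlinarith
  have e2 : 1 + ‖cm (a, b)‖ ^ 2 = 2 * a / (a + t) := by
    rw [en]
    field_simp
    nlinarith
  have e3 : t • Pz (cm (a, b)) = (t * ((1 + ‖cm (a, b)‖ ^ 2) / (1 - ‖cm (a, b)‖ ^ 2)),
    (t : ℂ) * (2 * cm (a, b) / ((1 - ‖cm (a, b)‖ ^ 2 : ℝ) : ℂ))) := rfl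
  rw [e3, e1, e2, ec]
  have hat' : ((a + t : ℝ) : ℂ) ≠ 0 := by exact_mod_cast hat.ne'
  have ht' : (t : ℂ) ≠ 0 := by exact_mod_cast ht0.ne'
  refine Prod.ext ?_ ?_
  · simp only
    field_simp
  · simp only
    rw [Complex.ofReal_div, Complex.ofReal_mul]
    field_simp
    norm_num

/-- the linear map of a matrix -/
private noncomputable def Lm (α β : ℂ) : (ℝ × ℂ) →ₗ[ℝ] (ℝ × ℂ) where
  toFun v := (v.1 * (‖α‖ ^ 2 + ‖β‖ ^ 2) + 2 * (α * conj β * v.2).re,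
    2 * α * β * (v.1 : ℂ) + α ^ 2 * v.2 + β ^ 2 * conj v.2)
  map_add' v w := by
    refine Prod.ext ?_ ?_
    · simp only [Prod.fst_add, Prod.snd_add, mul_add, Complex.add_re]
      ring
    · simp only [Prod.fst_add, Prod.snd_add, map_add, Complex.ofReal_add]
      ring
  map_smul' c v := by
    refine Prod.ext ?_ ?_
    · simp only [Prod.smul_fst, Prod.smul_snd, smul_eq_mul, RingHom.id_apply, Complex.real_smul]
      have e : (α * conj β * ((c : ℂ) * v.2)).re = c * (α * conj β * v.2).re := by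
        rw [← Complex.re_ofReal_mul]
        congr 1
        ring
      rw [e]
      ring
    · simp only [Prod.smul_fst, Prod.smul_snd, smul_eq_mul, RingHom.id_apply, Complex.real_smul, map_mul,
        Complex.conj_ofReal, Complex.ofReal_mul]
      ring

private theorem Lm_Pz {A : SL} (hA : IsSU A) {z : ℂ} (hz : z ∈ D) (hd : den A z ≠ 0) (hm : mob A z ∈ D) :
    Lm ((A : Mat) 0 0) ((A : Mat) 0 1) (Pz z) = Pz (mob A z) := by
  have h1 : ‖z‖ < 1 := mem_ball_zero_iff.1 hz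
  have h0 : 0 ≤ ‖z‖ := norm_nonneg z
  have hp : 0 < 1 - ‖z‖ ^ 2 := by nlinarith
  have hw1 : ‖mob A z‖ < 1 := mem_ball_zero_iff.1 hm
  have hw0 : 0 ≤ ‖mob A z‖ := norm_nonneg _
  have hq : 0 < 1 - ‖mob A z‖ ^ 2 := by nlinarith
  have hdet := A.det_coe
  rw [Matrix.det_fin_two, hA.1, hA.2, Complex.mul_conj, Complex.mul_conj, Complex.normSq_eq_norm_sq,
    Complex.normSq_eq_norm_sq] at hdet
  have h2 : ‖(A : Mat) 0 0‖ ^ 2 - ‖(A : Mat) 0 1‖ ^ 2 = 1 := by exact_mod_cast hdet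
  have hm0 : mob A z = ((A : Mat) 0 0 * z + (A : Mat) 0 1) / den A z := rfl
  have hden : den A z = conj ((A : Mat) 0 1) * z + conj ((A : Mat) 0 0) := by
    unfold den
    rw [hA.1, hA.2]
  set α := (A : Mat) 0 0 with hα
  set β := (A : Mat) 0 1 with hβ
  set d := den A z with hdd
  have nd : 0 < ‖d‖ := norm_pos_iff.2 hd
  have k1 : ‖d‖ ^ 2 - ‖α * z + β‖ ^ 2 = 1 - ‖z‖ ^ 2 := by
    rw [nsq_LSA α, nsq_LSA β] at h2
    rw [hden, nsq_LSA, nsq_LSA (α * z + β), nsq_LSA z]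
    simp only [Complex.add_re, Complex.add_im, Complex.mul_re, Complex.mul_im, Complex.conj_re,
      Complex.conj_im]
    linear_combination (1 - z.re ^ 2 - z.im ^ 2) * h2
  have k2 : ‖d‖ ^ 2 + ‖α * z + β‖ ^ 2 =
      (1 + ‖z‖ ^ 2) * (‖α‖ ^ 2 + ‖β‖ ^ 2) + 4 * (α * conj β * z).re := by
    rw [hden, nsq_LSA, nsq_LSA (α * z + β), nsq_LSA z, nsq_LSA α, nsq_LSA β]
    simp only [Complex.add_re, Complex.add_im, Complex.mul_re, Complex.mul_im, Complex.conj_re,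
      Complex.conj_im]
    ring
  have k3 : 1 - ‖mob A z‖ ^ 2 = (1 - ‖z‖ ^ 2) / ‖d‖ ^ 2 := by
    rw [hm0, norm_div, ← k1]
    field_simp
  have k4 : 1 + ‖mob A z‖ ^ 2 = (‖d‖ ^ 2 + ‖α * z + β‖ ^ 2) / ‖d‖ ^ 2 := by
    rw [hm0, norm_div]
    field_simp
  have e0 : Lm α β (Pz z) = (((1 + ‖z‖ ^ 2) / (1 - ‖z‖ ^ 2)) * (‖α‖ ^ 2 + ‖β‖ ^ 2) +
      2 * (α * conj β * (2 * z / ((1 - ‖z‖ ^ 2 : ℝ) : ℂ))).re,
      2 * α * β * (((1 + ‖z‖ ^ 2) / (1 - ‖z‖ ^ 2) : ℝ) : ℂ) + α ^ 2 * (2 * z / ((1 - ‖z‖ ^ 2 : ℝ) : ℂ)) +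
        β ^ 2 * conj (2 * z / ((1 - ‖z‖ ^ 2 : ℝ) : ℂ))) := rfl
  have e1 : Pz (mob A z) = ((1 + ‖mob A z‖ ^ 2) / (1 - ‖mob A z‖ ^ 2),
      2 * mob A z / ((1 - ‖mob A z‖ ^ 2 : ℝ) : ℂ)) := rfl
  have hp' : ((1 - ‖z‖ ^ 2 : ℝ) : ℂ) ≠ 0 := by exact_mod_cast hp.ne'
  have nd' : (‖d‖ : ℂ) ≠ 0 := by exact_mod_cast nd.ne'
  rw [e0, e1, k3, k4]
  refine Prod.ext ?_ ?_
  · simp only
    have e2 : (α * conj β * (2 * z / ((1 - ‖z‖ ^ 2 : ℝ) : ℂ))).re = 2 * (α * conj β * z).re / (1 - ‖z‖ ^ 2) := by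
      have e3 : α * conj β * (2 * z / ((1 - ‖z‖ ^ 2 : ℝ) : ℂ)) =
          ((2 / (1 - ‖z‖ ^ 2) : ℝ) : ℂ) * (α * conj β * z) := by
        rw [Complex.ofReal_div]
        field_simp
        push_cast
        ring
      rw [e3, Complex.re_ofReal_mul]
      ring
    rw [e2, k2]
    field_simp
    ring
  · simp only
    have hdc : d * conj d = ((‖d‖ ^ 2 : ℝ) : ℂ) := by
      rw [Complex.mul_conj, Complex.normSq_eq_norm_sq]
    have hzc : z * conj z = ((‖z‖ ^ 2 : ℝ) : ℂ) := by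
      rw [Complex.mul_conj, Complex.normSq_eq_norm_sq]
    have hcd : conj d = β * conj z + α := by
      rw [hden, map_add, map_mul, Complex.conj_conj, Complex.conj_conj]
    have e2 : conj (2 * z / ((1 - ‖z‖ ^ 2 : ℝ) : ℂ)) = 2 * conj z / ((1 - ‖z‖ ^ 2 : ℝ) : ℂ) := by
      rw [map_div₀, map_mul, Complex.conj_ofReal, map_ofNat]
    have e3 : 2 * mob A z / (((1 - ‖z‖ ^ 2) / ‖d‖ ^ 2 : ℝ) : ℂ) =
        2 * (α * z + β) * conj d / ((1 - ‖z‖ ^ 2 : ℝ) : ℂ) := by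
      rw [hm0, Complex.ofReal_div, ← hdc]
      have hcd0 : conj d ≠ 0 := by
        rw [Ne, map_eq_zero]
        exact hd
      field_simp
    rw [e3, e2, hcd, Complex.ofReal_div]
    rw [eq_div_iff hp']
    have e4 : ((1 + ‖z‖ ^ 2 : ℝ) : ℂ) = 1 + z * conj z := by
      rw [hzc]
      push_cast
      ring
    rw [e4]
    field_simp
    ring

theorem hLSA (hSUB : StSUB) : StLSA := by
  have hden : ∀ v : ℝ × ℂ, ‖v.2‖ < v.1 → 0 < v.1 ^ 2 - ‖v.2‖ ^ 2 := by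
    intro v hv
    nlinarith [norm_nonneg v.2]
  refine ⟨one_LSA, ?_, three_LSA, ?_, ?_, ?_⟩
  · intro v w hv hw
    rw [Prod.snd_add, Prod.fst_add]
    exact (norm_add_le _ _).trans_lt (add_lt_add hv hw)
  · intro A hA
    have hs := hSUB.1 A hA
    have hP : ∀ z ∈ D, Lm ((A : Mat) 0 0) ((A : Mat) 0 1) (Pz z) = Pz (mob A z) := fun z hz =>
      Lm_Pz hA hz (hs.2.1 z (ball_subset_closedBall hz)) (hs.2.2.1.mapsTo hz)
    refine ⟨LinearMap.toContinuousLinearMap (Lm ((A : Mat) 0 0) ((A : Mat) 0 1)), hP, ?_⟩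
    intro v hv
    obtain ⟨hc, t, ht, hvt⟩ := three_LSA v hv
    have e1 : LinearMap.toContinuousLinearMap (Lm ((A : Mat) 0 0) ((A : Mat) 0 1)) v =
        t • Pz (mob A (cm v)) := by
      change Lm ((A : Mat) 0 0) ((A : Mat) 0 1) v = _
      rw [← hP _ hc, ← map_smul, ← hvt]
    rw [e1]
    exact one_LSA _ (hs.2.2.1.mapsTo hc) t ht
  · have h1 : ContDiffOn ℝ ((⊤ : ℕ∞) : WithTop ℕ∞) (fun v : ℝ × ℂ => v.1 + Real.sqrt (v.1 ^ 2 - ‖v.2‖ ^ 2))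
        {v | ‖v.2‖ < v.1} := by
      refine contDiff_fst.contDiffOn.add (ContDiffOn.sqrt ?_ fun v hv => (hden v hv).ne')
      exact ((contDiff_fst.pow 2).sub (contDiff_snd.norm_sq ℝ)).contDiffOn
    have h2 : ContDiffOn ℝ ((⊤ : ℕ∞) : WithTop ℕ∞)
        (fun v : ℝ × ℂ => (v.1 + Real.sqrt (v.1 ^ 2 - ‖v.2‖ ^ 2))⁻¹ • v.2) {v | ‖v.2‖ < v.1} := by
      refine (h1.inv fun v hv => ?_).smul contDiff_snd.contDiffOn
      have h3 : ‖v.2‖ < v.1 := hv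
      have h4 := Real.sqrt_nonneg (v.1 ^ 2 - ‖v.2‖ ^ 2)
      have h5 := norm_nonneg v.2
      linarith
    refine h2.congr fun v _ => ?_
    unfold cm
    rw [Complex.real_smul, Complex.ofReal_inv, div_eq_inv_mul]
  · have hp : ∀ z ∈ D, 1 - ‖z‖ ^ 2 ≠ 0 := by
      intro z hz
      have h1 : ‖z‖ < 1 := mem_ball_zero_iff.1 hz
      have h0 : 0 ≤ ‖z‖ := norm_nonneg z
      nlinarith
    have h1 : ContDiffOn ℝ ((⊤ : ℕ∞) : WithTop ℕ∞) (fun z : ℂ => (1 - ‖z‖ ^ 2)⁻¹) D := by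
      refine ContDiffOn.inv ?_ hp
      exact (contDiff_const.sub (contDiff_id.norm_sq ℝ)).contDiffOn
    have h2 : ContDiffOn ℝ ((⊤ : ℕ∞) : WithTop ℕ∞) (fun z : ℂ => (1 + ‖z‖ ^ 2) * (1 - ‖z‖ ^ 2)⁻¹) D :=
      (contDiff_const.add (contDiff_id.norm_sq ℝ)).contDiffOn.mul h1
    have h3 : ContDiffOn ℝ ((⊤ : ℕ∞) : WithTop ℕ∞) (fun z : ℂ => (1 - ‖z‖ ^ 2)⁻¹ • (2 * z)) D :=
      h1.smul (contDiff_const.mul contDiff_id).contDiffOn
    refine (h2.prodMk h3).congr fun z _ => ?_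
    unfold Pz
    refine Prod.ext ?_ ?_
    · simp only
      rw [div_eq_mul_inv]
    · simp only
      rw [Complex.real_smul, Complex.ofReal_inv, div_eq_inv_mul]

end Pool.Agent.Helper5.QP
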