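import Pool.Agent.Helper20.QP.St1

set_option autoImplicit false

open Filter Topology Matrix Set Metric MeasureTheory
open scoped ComplexConjugate ENNReal

namespace Pool.Agent.Helper5.QP

open Pool.Agent.Helper35.PM Pool.Agent.Helper20.QD Pool.Agent.Helper20.QP

private theorem su_norm {A : SL} (hA : IsSU A) :
    ‖(A : Mat) 0 0‖ ^ 2 = 1 + ‖(A : Mat) 0 1‖ ^ 2 ∧ hs (A : Mat) = 2 + 4 * ‖(A : Mat) 0 1‖ ^ 2 := by
  have hdet := A.det_coe
  rw [Matrix.det_fin_two, hA.1, hA.2, Complex.mul_conj, Complex.mul_conj, Complex.normSq_eq_norm_sq,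
    Complex.normSq_eq_norm_sq] at hdet
  have h1 : ‖(A : Mat) 0 0‖ ^ 2 - ‖(A : Mat) 0 1‖ ^ 2 = 1 := by exact_mod_cast hdet
  refine ⟨by linarith, ?_⟩
  unfold hs
  rw [Fin.sum_univ_two, Fin.sum_univ_two, Fin.sum_univ_two, hA.1, hA.2, Complex.norm_conj,
    Complex.norm_conj]
  linarith

/-- the commutator estimate -/
private theorem comm_ZAS {A B : SL} (hA : IsSU A) (hB : IsSU B)
    (iA : ((A : Mat) 0 0).im ^ 2 ≤ ‖(A : Mat) 0 1‖ ^ 2) (iB : ((B : Mat) 0 0).im ^ 2 ≤ ‖(B : Mat) 0 1‖ ^ 2)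
    (sA : ‖(A : Mat) 0 1‖ ^ 2 ≤ 1 / 1600) (sB : ‖(B : Mat) 0 1‖ ^ 2 ≤ 1 / 1600) :
    ‖((A * B * A⁻¹ * B⁻¹ : SL) : Mat) 0 1‖ ≤ 1 / 2 * ‖(A : Mat) 0 1‖ := by
  have e0 : A * B * A⁻¹ * B⁻¹ = (A * B) * (B * A)⁻¹ := by group
  have nA := (su_norm hA).1
  have nB := (su_norm hB).1
  obtain ⟨hA1, hA2⟩ := hA
  obtain ⟨hB1, hB2⟩ := hB
  set a := (A : Mat) 0 0 with ha
  set b := (A : Mat) 0 1 with hb
  set c := (B : Mat) 0 0 with hc
  set d := (B : Mat) 0 1 with hd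
  have e1 : ((A * B * A⁻¹ * B⁻¹ : SL) : Mat) 0 1 =
      a * c * (d * (a - conj a) - b * (c - conj c)) + (a * d + b * conj c) * d * conj b
        - b * conj d * (c * b + d * conj a) := by
    rw [e0, Matrix.SpecialLinearGroup.coe_mul, Matrix.SpecialLinearGroup.coe_inv, Matrix.adjugate_fin_two,
      Matrix.SpecialLinearGroup.coe_mul, Matrix.SpecialLinearGroup.coe_mul]
    simp only [Matrix.mul_apply, Fin.sum_univ_two, Matrix.of_apply, Matrix.cons_val', Matrix.cons_val_zero,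
      Matrix.cons_val_one, Matrix.cons_val_fin_one]
    rw [hA1, hA2, hB1, hB2, ← ha, ← hb, ← hc, ← hd]
    ring
  have im2 : ∀ w : ℂ, ‖w - conj w‖ = 2 * |w.im| := by
    intro w
    rw [Complex.sub_conj, norm_mul, Complex.norm_I, mul_one, Complex.norm_real, Real.norm_eq_abs, abs_mul,
      abs_of_pos (by norm_num : (0 : ℝ) < 2)]
  set x := ‖b‖ with hx
  set y := ‖d‖ with hy
  have x0 : 0 ≤ x := norm_nonneg _
  have y0 : 0 ≤ y := norm_nonneg _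
  have p0 : 0 ≤ ‖a‖ := norm_nonneg _
  have q0 : 0 ≤ ‖c‖ := norm_nonneg _
  have x1 : x ≤ 1 / 40 := by nlinarith
  have y1 : y ≤ 1 / 40 := by nlinarith
  have p1 : ‖a‖ ≤ 1001 / 1000 := by nlinarith
  have q1 : ‖c‖ ≤ 1001 / 1000 := by nlinarith
  have ia : |a.im| ≤ x := abs_le_of_sq_le_sq iA x0
  have ic : |c.im| ≤ y := abs_le_of_sq_le_sq iB y0
  have t1 : ‖a * c * (d * (a - conj a) - b * (c - conj c))‖ ≤ ‖a‖ * ‖c‖ * (4 * (x * y)) := by
    rw [norm_mul, norm_mul]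
    apply mul_le_mul_of_nonneg_left _ (by positivity)
    refine (norm_sub_le _ _).trans ?_
    rw [norm_mul, norm_mul, im2, im2]
    nlinarith [mul_le_mul_of_nonneg_left ia y0, mul_le_mul_of_nonneg_left ic x0]
  have t2 : ‖(a * d + b * conj c) * d * conj b‖ ≤ (‖a‖ * y + x * ‖c‖) * (x * y) := by
    rw [norm_mul, norm_mul, Complex.norm_conj]
    have h1 : ‖a * d + b * conj c‖ ≤ ‖a‖ * y + x * ‖c‖ := by
      refine (norm_add_le _ _).trans ?_
      rw [norm_mul, norm_mul, Complex.norm_conj]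
    calc ‖a * d + b * conj c‖ * ‖d‖ * ‖b‖ = ‖a * d + b * conj c‖ * (x * y) := by rw [hx, hy]; ring
      _ ≤ _ := mul_le_mul_of_nonneg_right h1 (by positivity)
  have t3 : ‖b * conj d * (c * b + d * conj a)‖ ≤ (‖c‖ * x + y * ‖a‖) * (x * y) := by
    rw [norm_mul, norm_mul, Complex.norm_conj]
    have h1 : ‖c * b + d * conj a‖ ≤ ‖c‖ * x + y * ‖a‖ := by
      refine (norm_add_le _ _).trans ?_
      rw [norm_mul, norm_mul, Complex.norm_conj]
    calc ‖b‖ * ‖d‖ * ‖c * b + d * conj a‖ = ‖c * b + d * conj a‖ * (x * y) := by rw [hx, hy]; ring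
      _ ≤ _ := mul_le_mul_of_nonneg_right h1 (by positivity)
  rw [e1]
  refine (norm_sub_le _ _).trans ?_
  have t4 := norm_add_le (a * c * (d * (a - conj a) - b * (c - conj c))) ((a * d + b * conj c) * d * conj b)
  have xy0 : 0 ≤ x * y := by positivity
  have u1 : ‖a‖ * ‖c‖ ≤ 1001 / 1000 * (1001 / 1000) := mul_le_mul p1 q1 q0 (by norm_num)
  have u2 : ‖a‖ * y ≤ 1001 / 1000 * (1 / 40) := mul_le_mul p1 y1 y0 (by norm_num)
  have u3 : ‖c‖ * x ≤ 1001 / 1000 * (1 / 40) := mul_le_mul q1 x1 x0 (by norm_num)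
  have v1 : ‖a‖ * ‖c‖ * (4 * (x * y)) ≤ 1001 / 1000 * (1001 / 1000) * (4 * (x * y)) :=
    mul_le_mul_of_nonneg_right u1 (by positivity)
  have v2 : (‖a‖ * y + x * ‖c‖) * (x * y) ≤ (1001 / 1000 * (1 / 40) + 1001 / 1000 * (1 / 40)) * (x * y) := by
    apply mul_le_mul_of_nonneg_right _ xy0
    linarith
  have v3 : (‖c‖ * x + y * ‖a‖) * (x * y) ≤ (1001 / 1000 * (1 / 40) + 1001 / 1000 * (1 / 40)) * (x * y) := by
    apply mul_le_mul_of_nonneg_right _ xy0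
    linarith
  have v4 : x * y ≤ x * (1 / 40) := mul_le_mul_of_nonneg_left y1 x0
  linarith

/-- matrices commuting with a matrix whose upper right entry is not zero -/
private theorem poly_ZAS {M X : Mat} (h : M * X = X * M) (hq : M 0 1 ≠ 0) :
    X = (X 0 0 - M 0 0 * (X 0 1 / M 0 1)) • (1 : Mat) + (X 0 1 / M 0 1) • M := by
  have h00 := congrFun (congrFun h 0) 0
  have h01 := congrFun (congrFun h 0) 1
  simp only [Matrix.mul_apply, Fin.sum_univ_two] at h00 h01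
  ext i j
  fin_cases i <;> fin_cases j
  · simp
    ring
  · simp
    field_simp
  · simp
    field_simp
    linear_combination h00
  · simp
    field_simp
    linear_combination h01

theorem hZAS (hSUB : StSUB) (hMET : StMET) (hHY2 : StHY2) : StZAS := by
  intro Γ _ σ hσ hTF z α β hz hα hβ
  obtain ⟨sub1, sub2, sub3, sub4, -, sub6⟩ := hSUB
  obtain ⟨met1, -, -, -, met5, -, -⟩ := hMET
  obtain ⟨hy1, -, ε, hε, hthick⟩ := hHY2 Γ σ hσ hTF
  obtain ⟨B, hB, hBz⟩ := sub3 z hz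
  have h0D : (0 : ℂ) ∈ D := mem_ball_self one_pos
  have h0DD : (0 : ℂ) ∈ DD := mem_closedBall_self zero_le_one
  have hDDD : D ⊆ DD := ball_subset_closedBall
  have hBi := (sub1 B hB).1
  -- conjugated representation
  let τ : Γ → SL := fun γ => B⁻¹ * σ γ * B
  have hτ : ∀ γ, IsSU (τ γ) := fun γ => sub2 _ _ (sub2 _ _ hBi (hσ.su γ)) hB
  have hτm : ∀ γ δ, τ (γ * δ) = τ γ * τ δ := by
    intro γ δ
    simp only [τ, map_mul]
    group
  have hτi : ∀ γ, τ γ⁻¹ = (τ γ)⁻¹ := by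
    intro γ
    simp only [τ, map_inv]
    group
  let bb : Γ → ℝ := fun γ => dl z (mob (σ γ) z)
  have hbb : ∀ γ, bb γ = ‖(τ γ : Mat) 0 1‖ ^ 2 := by
    intro γ
    have hm : mob (σ γ) z ∈ D := (sub1 _ (hσ.su γ)).2.2.1.mapsTo hz
    have h1 := met1 B⁻¹ z (mob (σ γ) z) hBi hz hm
    have h2 : mob B⁻¹ z = 0 := by
      rw [← hBz]
      exact (sub1 B hB).2.2.2.2 0 h0DD
    have h3 : mob B⁻¹ (mob (σ γ) z) = mob (τ γ) 0 := by
      have e1 := (sub4 (B⁻¹ * σ γ) B 0 ((sub1 B hB).2.1 0 h0DD)).1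
      have e2 := (sub4 B⁻¹ (σ γ) z ((sub1 _ (hσ.su γ)).2.1 z (hDDD hz))).1
      change _ = mob (B⁻¹ * σ γ * B) 0
      rw [e1, hBz, e2]
    rw [h2, h3] at h1
    have h4 := met5 (τ γ) (hτ γ)
    have h5 := (su_norm (hτ γ)).2
    change dl z (mob (σ γ) z) = _
    rw [← h1]
    linarith
  have hre : ∀ γ, γ ≠ 1 → 1 + ε ≤ ((τ γ : Mat) 0 0).re ^ 2 := by
    intro γ hγ
    have h1 := hthick γ hγ
    have h2 : ((σ γ : SL) : Mat).trace = ((τ γ : SL) : Mat).trace := by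
      change _ = ((B⁻¹ * σ γ * B : SL) : Mat).trace
      rw [Matrix.SpecialLinearGroup.coe_mul, Matrix.trace_mul_comm, ← Matrix.SpecialLinearGroup.coe_mul]
      congr 2
      group
    unfold sh at h1
    rw [h2, Matrix.trace_fin_two, (hτ γ).1] at h1
    rw [Complex.add_re, Complex.conj_re] at h1
    nlinarith
  have him : ∀ γ, γ ≠ 1 → ((τ γ : Mat) 0 0).im ^ 2 ≤ ‖(τ γ : Mat) 0 1‖ ^ 2 := by
    intro γ hγ
    have h1 := hre γ hγ
    have h2 := (su_norm (hτ γ)).1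
    rw [← Complex.normSq_eq_norm_sq, Complex.normSq_apply] at h2
    nlinarith
  have hpos : ∀ γ, γ ≠ 1 → 0 < bb γ := by
    intro γ hγ
    have h1 := hre γ hγ
    have h2 := (su_norm (hτ γ)).1
    rw [← Complex.normSq_eq_norm_sq, Complex.normSq_apply] at h2
    rw [hbb]
    nlinarith [sq_nonneg ((τ γ : Mat) 0 0).im]
  -- finiteness
  have hfin : {γ : Γ | γ ≠ 1 ∧ bb γ ≤ 1 / 1600}.Finite := by
    have hz1 : ‖z‖ < 1 := mem_ball_zero_iff.1 hz
    set δ : ℝ := 1 - ‖z‖ with hδ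
    have hδ0 : 0 < δ := by linarith
    have hδ1 : δ ≤ 1 := by linarith [norm_nonneg z]
    refine (hσ.discrete (8 / (1 - (1 - δ ^ 2 / 4)) ^ 3)).subset ?_
    rintro γ ⟨-, hγ⟩
    refine sub6 (σ γ) z (1 - δ ^ 2 / 4) (hσ.su γ) (by nlinarith) (by nlinarith) ?_
    have hm : mob (σ γ) z ∈ D := (sub1 _ (hσ.su γ)).2.2.1.mapsTo hz
    set w := mob (σ γ) z with hw
    have hw1 : ‖w‖ < 1 := mem_ball_zero_iff.1 hm
    have h1 : dl z w ≤ 1 / 1600 := hγ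
    unfold dl at h1
    have p1 : 0 < 1 - ‖z‖ ^ 2 := by nlinarith [norm_nonneg z]
    have p2 : 0 < 1 - ‖w‖ ^ 2 := by nlinarith [norm_nonneg w]
    rw [div_le_iff₀ (mul_pos p1 p2)] at h1
    have h2 : (‖w‖ - ‖z‖) ^ 2 ≤ ‖z - w‖ ^ 2 := by
      have h3 := abs_norm_sub_norm_le w z
      rw [norm_sub_rev] at h3
      rw [← sq_abs (‖w‖ - ‖z‖)]
      exact pow_le_pow_left₀ (abs_nonneg _) h3 2
    have h4 : (1 - ‖z‖ ^ 2) * (1 - ‖w‖ ^ 2) ≤ 1 - ‖w‖ ^ 2 := by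
      nlinarith [sq_nonneg ‖z‖]
    have h5 : (‖w‖ - ‖z‖) ^ 2 ≤ 1 / 800 * (1 - ‖w‖) := by
      nlinarith [norm_nonneg w]
    by_contra hcon
    have hcon := not_le.1 hcon
    have h6 : 3 / 4 * δ ≤ ‖w‖ - ‖z‖ := by nlinarith
    have h7 : (3 / 4 * δ) ^ 2 ≤ (‖w‖ - ‖z‖) ^ 2 := pow_le_pow_left₀ (by positivity) h6 2
    nlinarith
  by_cases hα1 : α = 1
  · rw [hα1]
    exact Commute.one_left β
  by_cases hβ1 : β = 1
  · rw [hβ1]
    exact Commute.one_right α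
  obtain ⟨α0, ⟨hα01, hα02⟩, hmin⟩ := Set.exists_min_image {γ : Γ | γ ≠ 1 ∧ bb γ ≤ 1 / 1600} bb hfin
    ⟨α, hα1, hα⟩
  -- all elements of `E` commute with `α0`
  have hcomm : ∀ γ : Γ, γ ≠ 1 → bb γ ≤ 1 / 1600 → α0 * γ = γ * α0 := by
    intro γ hγ1 hγ2
    by_contra hne
    have hk1 : α0 * γ * α0⁻¹ * γ⁻¹ ≠ 1 := by
      intro h
      apply hne
      have h1 : α0 * γ = α0 * γ * α0⁻¹ * γ⁻¹ * (γ * α0) := by group
      rw [h1, h, one_mul]
    have h1 := comm_ZAS (hτ α0) (hτ γ) (him α0 hα01) (him γ hγ1) (by rw [← hbb]; exact hα02)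
      (by rw [← hbb]; exact hγ2)
    rw [← hτi, ← hτi, ← hτm, ← hτm, ← hτm] at h1
    have h2 : bb (α0 * γ * α0⁻¹ * γ⁻¹) ≤ 1 / 4 * bb α0 := by
      rw [hbb, hbb]
      calc ‖(τ (α0 * γ * α0⁻¹ * γ⁻¹) : Mat) 0 1‖ ^ 2 ≤ (1 / 2 * ‖(τ α0 : Mat) 0 1‖) ^ 2 :=
            pow_le_pow_left₀ (norm_nonneg _) h1 2
        _ = _ := by ring
    have h3 := hpos α0 hα01
    have h4 := hmin _ ⟨hk1, by linarith⟩
    linarith
  have h1 := hcomm α hα1 hα
  have h2 := hcomm β hβ1 hβ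
  have hq : (τ α0 : Mat) 0 1 ≠ 0 := by
    intro h
    have h3 := hpos α0 hα01
    rw [hbb, h, norm_zero] at h3
    norm_num at h3
  have m1 : (τ α0 : Mat) * (τ α : Mat) = (τ α : Mat) * (τ α0 : Mat) := by
    rw [← Matrix.SpecialLinearGroup.coe_mul, ← Matrix.SpecialLinearGroup.coe_mul, ← hτm, ← hτm, h1]
  have m2 : (τ α0 : Mat) * (τ β : Mat) = (τ β : Mat) * (τ α0 : Mat) := by
    rw [← Matrix.SpecialLinearGroup.coe_mul, ← Matrix.SpecialLinearGroup.coe_mul, ← hτm, ← hτm, h2]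
  have m3 : (τ α : Mat) * (τ β : Mat) = (τ β : Mat) * (τ α : Mat) := by
    rw [poly_ZAS m1 hq, poly_ZAS m2 hq]
    simp only [mul_add, add_mul, Matrix.smul_mul, Matrix.mul_smul, Matrix.one_mul, Matrix.mul_one,
      smul_smul]
    module
  have m4 : τ α * τ β = τ β * τ α := by
    apply Subtype.ext
    exact m3
  have m5 : σ α * σ β = σ β * σ α := by
    rw [← hτm, ← hτm] at m4
    have e1 : ∀ γ, σ γ = B * τ γ * B⁻¹ := by
      intro γ
      simp only [τ]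
      group
    rw [← map_mul, ← map_mul, e1, e1, m4]
  have m6 : α * β * α⁻¹ * β⁻¹ = 1 := by
    apply hy1
    left
    have e1 : σ (α * β * α⁻¹ * β⁻¹) = 1 := by
      rw [map_mul, map_mul, map_mul, m5, map_inv, map_inv]
      group
    rw [e1]
    rfl
  have h3 : α * β = α * β * α⁻¹ * β⁻¹ * (β * α) := by group
  change α * β = β * α
  rw [h3, m6, one_mul]

end Pool.Agent.Helper5.QP
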